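import Pool.Agent.Helper47.GM.Q1
import Pool.Agent.Helper65.RT.Q2

/-!
# GM-Q3: the moment of a sector (after RT-Q3)

PROOF. `m12 ≤ card ^ 6 * m6` pointwise, Q1 for the integral over the radii, `count_sec` for the two counts; the interval of the `s` has length `2 l`.
-/

open MeasureTheory Real Set Filter Topology

set_option autoImplicit false

namespace Pool.Agent.Helper60.GM

open Pool.Agent.Helper22.AE
open Pool.Agent.Helper92.GC (dt tp Tq uu tt arc dd sqa m6)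
open Pool.Agent.Helper92.DT (m12 IsMul12)
open Pool.Agent.Helper60.LT (Fr Tf xf yf df vf fr ac co Cut BB PP)
open Pool.Agent.Helper60.QL (nm Cone)
open Pool.Agent.Helper60.RT (R2 cn FR sp Pr prs ctr lf2 ln2 count_sec)

private theorem tpc47 (S : Finset (ℤ × ℤ)) {b : ℤ × ℤ → ℂ} (hb : ∀ k, ‖b k‖ ≤ 1) (c : ℝ × ℝ) :
    ‖tp S b c‖ ≤ (S.card : ℝ) := by
  refine (Pool.Agent.Helper92.GC.tp_norm_le S b c).trans ?_
  refine (Finset.sum_le_card_nsmul _ _ 1 fun k _ => hb k).trans (by simp)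

private theorem m12m6_47 (S : Finset (ℤ × ℤ)) {b : ℤ × ℤ → ℂ} (hb : ∀ k, ‖b k‖ ≤ 1) :
    m12 S b ≤ (S.card : ℝ) ^ 6 * m6 S b := by
  have hfin : IsFiniteMeasure ((volume : Measure (ℝ × ℝ)).restrict Tq) := by
    refine ⟨?_⟩
    rw [Measure.restrict_apply_univ]
    exact (isCompact_Icc.prod isCompact_Icc).measure_lt_top
  have hint : Integrable (fun c => ‖tp S b c‖ ^ 6) (volume.restrict Tq) := by
    refine Integrable.of_bound (C := (S.card : ℝ) ^ 6)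
      ((Pool.Agent.Helper92.GC.tp_cont S b).norm.pow 6).aestronglyMeasurable (Filter.Eventually.of_forall fun c => ?_)
    rw [Real.norm_of_nonneg (by positivity)]
    exact pow_le_pow_left₀ (norm_nonneg _) (tpc47 S hb c) 6
  unfold m12 m6
  rw [← integral_const_mul]
  refine integral_mono_of_nonneg (Filter.Eventually.of_forall fun q => by positivity)
      (hint.const_mul _) (Filter.Eventually.of_forall fun c => ?_)
  change ‖tp S b c‖ ^ 12 ≤ _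
  have h4 : ‖tp S b c‖ ^ 12 = ‖tp S b c‖ ^ 6 * ‖tp S b c‖ ^ 6 := by ring
  rw [h4]
  exact mul_le_mul_of_nonneg_right (pow_le_pow_left₀ (norm_nonneg _) (tpc47 S hb c) 6) (by positivity)

private theorem cn47 {N : ℕ} {k : ℤ × ℤ} (hk : k ∈ cn N) : (N : ℝ) ≤ k.1 ∧ (k.1 : ℝ) < 2 * N ∧ |(k.2 : ℝ)| ≤ k.1 := by
  classical
  unfold cn sqa at hk
  obtain ⟨h1, h2, h3⟩ := Finset.mem_filter.1 hk
  obtain ⟨-, h4, h5, h6⟩ := Finset.mem_filter.1 h1
  have hpos : 0 < k.1 := by linarith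
  have h7 : |k.2| ≤ k.1 := abs_le.2 ⟨h2.le, h3⟩
  rw [abs_of_pos hpos] at h4 h5
  have h8 : (N : ℤ) ≤ k.1 := by
    rcases h4 with h | h
    · exact h
    · exact h.trans h7
  refine ⟨by exact_mod_cast h8, by exact_mod_cast h5, by exact_mod_cast h7⟩

/-- the numerical part -/
private theorem num47 {B C₁ C₂ η X N P Q D₁ card prs : ℝ} (hη : 0 < η) (hB : 1 ≤ B) (hC₁ : 1 ≤ C₁) (hC₂ : 1 ≤ C₂) (hX : 1 ≤ X) (hN : 1 ≤ N) (hNX : N ≤ X)
    (hP : 0 ≤ P) (hQ : 0 ≤ Q) (hD : D₁ = C₁ * (1 + N ^ 2 / √(N * X))) (hc0 : 0 ≤ card) (hc : card ≤ C₂ * (1 + log N) * P) (hp0 : 0 ≤ prs)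
    (hp : prs ≤ C₂ * (1 + log N) * D₁ * (3 * Q)) :
    card ^ 6 * (C₁ * X * N ^ (η / 2) * card * prs ^ 2) * B ≤
      (18 * B * C₁ ^ 3 * C₂ ^ 9 * (1 + 18 / η) ^ 9) * X ^ (1 + η) * P ^ 7 * Q ^ 2 * (1 + N ^ 3 / X) := by
  have hX0 : 0 < X := by linarith
  have hN0 : 0 < N := by linarith
  have hl0 : 0 ≤ log N := log_nonneg hN
  have ht : 0 < η / 18 := by positivity
  have hXt : 1 ≤ X ^ (η / 18) := one_le_rpow hX ht.le
  have hlog : 1 + log N ≤ (1 + 18 / η) * X ^ (η / 18) := by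
    have h1 : log N ≤ log X := log_le_log hN0 hNX
    have h2 : log X ≤ X ^ (η / 18) / (η / 18) := log_le_rpow_div hX0.le ht
    have h3 : X ^ (η / 18) / (η / 18) = 18 / η * X ^ (η / 18) := by field_simp
    rw [h3] at h2
    calc 1 + log N ≤ X ^ (η / 18) + 18 / η * X ^ (η / 18) := by linarith
      _ = _ := by ring
  have hlog9 : (1 + log N) ^ 9 ≤ (1 + 18 / η) ^ 9 * X ^ (η / 2) := by
    refine (pow_le_pow_left₀ (by linarith) hlog 9).trans (le_of_eq ?_)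
    rw [mul_pow, ← rpow_natCast (X ^ (η / 18)) 9, ← rpow_mul hX0.le]
    congr 2
    push_cast
    ring
  have hNe : N ^ (η / 2) ≤ X ^ (η / 2) := rpow_le_rpow hN0.le hNX (by positivity)
  have hD0 : 0 ≤ D₁ := by
    rw [hD]
    positivity
  have hD2 : D₁ ^ 2 ≤ 2 * C₁ ^ 2 * (1 + N ^ 3 / X) := by
    have h1 : (N ^ 2 / √(N * X)) ^ 2 = N ^ 3 / X := by
      rw [div_pow, Real.sq_sqrt (by positivity)]
      field_simp
    have h2 : (1 + N ^ 2 / √(N * X)) ^ 2 ≤ 2 * (1 + N ^ 3 / X) := by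
      have h3 := sq_nonneg (1 - N ^ 2 / √(N * X))
      have h4 : (1 + N ^ 2 / √(N * X)) ^ 2 + (1 - N ^ 2 / √(N * X)) ^ 2 = 2 * (1 + (N ^ 2 / √(N * X)) ^ 2) := by ring
      rw [h1] at h4
      linarith
    rw [hD, mul_pow]
    have := mul_le_mul_of_nonneg_left h2 (sq_nonneg C₁)
    linarith
  have hc7 : card ^ 7 ≤ (C₂ * (1 + log N) * P) ^ 7 := pow_le_pow_left₀ hc0 hc 7
  have hp2 : prs ^ 2 ≤ (C₂ * (1 + log N) * D₁ * (3 * Q)) ^ 2 := pow_le_pow_left₀ hp0 hp 2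
  have hXX : X * (X ^ (η / 2) * X ^ (η / 2)) = X ^ (1 + η) := by
    rw [← rpow_add hX0]
    nth_rewrite 1 [← rpow_one X]
    rw [← rpow_add hX0]
    congr 1
    ring
  calc card ^ 6 * (C₁ * X * N ^ (η / 2) * card * prs ^ 2) * B = B * C₁ * X * (N ^ (η / 2) * (card ^ 7 * prs ^ 2)) := by ring
    _ ≤ B * C₁ * X * (X ^ (η / 2) * ((C₂ * (1 + log N) * P) ^ 7 * (C₂ * (1 + log N) * D₁ * (3 * Q)) ^ 2)) := by
        refine mul_le_mul_of_nonneg_left ?_ (by positivity)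
        exact mul_le_mul hNe (mul_le_mul hc7 hp2 (by positivity) (by positivity)) (by positivity) (by positivity)
    _ = (9 * B * C₁ * C₂ ^ 9) * (X * X ^ (η / 2)) * (P ^ 7 * Q ^ 2) * ((1 + log N) ^ 9 * D₁ ^ 2) := by ring
    _ ≤ (9 * B * C₁ * C₂ ^ 9) * (X * X ^ (η / 2)) * (P ^ 7 * Q ^ 2) * (((1 + 18 / η) ^ 9 * X ^ (η / 2)) * (2 * C₁ ^ 2 * (1 + N ^ 3 / X))) := by
        refine mul_le_mul_of_nonneg_left ?_ (by positivity)
        exact mul_le_mul hlog9 hD2 (by positivity) (by positivity)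
    _ = (18 * B * C₁ ^ 3 * C₂ ^ 9 * (1 + 18 / η) ^ 9) * (X * (X ^ (η / 2) * X ^ (η / 2))) * P ^ 7 * Q ^ 2 * (1 + N ^ 3 / X) := by ring
    _ = _ := by rw [hXX]

/-- Q3: the moment of a sector -/
theorem sec_bdG {η B₀ B : ℝ} (hη : 0 < η) (hB₀ : 1 ≤ B₀) (hB : 1 ≤ B) : ∃ C : ℝ, 1 ≤ C ∧ ∀ (F : Fam), F.Ok B₀ → ∀ (X : ℝ) (N : ℕ) (W D τ s₀ l : ℝ) (S : Finset (ℤ × ℤ)), 1 ≤ X → 1 ≤ N →
    (N : ℝ) ≤ X → 0 ≤ W → W ≤ 2 → 1 ≤ D → In s₀ l → S ⊆ cn N → (∀ k ∈ S, |tt 0 k - τ| ≤ W) → (∀ k ∈ S, D * (Int.gcd k.1 k.2 : ℝ) ≤ k.1) →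
      RN F s₀ l B X S ≤ ENNReal.ofReal (C * X ^ (1 + η) * (N ^ 2 * W + N / D) ^ 7 * (N ^ 2 * W + (N / D) ^ 2) ^ 2 * (1 + N ^ 3 / X)) := by
  obtain ⟨C₁, hC₁, h1⟩ := m6_fixG (ε := η / 2) (B₀ := B₀) (B := B) (lam := 2) (by positivity) hB₀ hB (by norm_num)
  obtain ⟨C₂, hC₂, h2⟩ := count_sec
  have hη1 : 1 ≤ 1 + 18 / η := by
    have : 0 ≤ 18 / η := by positivity
    linarith
  refine ⟨18 * 2 * C₁ ^ 3 * C₂ ^ 9 * (1 + 18 / η) ^ 9, ?_, ?_⟩
  · have a1 : (1 : ℝ) ≤ 18 * 2 := by norm_num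
    have a2 : 1 ≤ C₁ ^ 3 := one_le_pow₀ hC₁
    have a3 : 1 ≤ C₂ ^ 9 := one_le_pow₀ hC₂
    have a4 : 1 ≤ (1 + 18 / η) ^ 9 := one_le_pow₀ hη1
    exact one_le_mul_of_one_le_of_one_le (one_le_mul_of_one_le_of_one_le (one_le_mul_of_one_le_of_one_le a1 a2) a3) a4
  intro F hF X N W D τ s₀ l S hX hN hNX hW _ hD hin' hS hτ hgcd
  obtain ⟨hl0, hl1, hl2⟩ := hin'
  have hNr : (1 : ℝ) ≤ N := by exact_mod_cast hN
  have hB0 : 0 < B := by linarith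
  have hX0 : 0 < X := by linarith
  have hD0 : 0 < D := by linarith
  rcases S.eq_empty_or_nonempty with hSe | ⟨k₀, hk₀⟩
  · have h0 : RN F s₀ l B X S = 0 := by
      unfold RN mf m12 tp
      rw [hSe]
      simp
    rw [h0]
    exact zero_le
  -- the cone condition
  have hcone : Cone (N : ℝ) 2 S := by
    intro k hk
    obtain ⟨a, b, c⟩ := cn47 (hS hk)
    have hk0 : (0 : ℝ) ≤ k.1 := by linarith
    exact ⟨by linarith, b.le, by linarith⟩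
  obtain ⟨hcard, hprs⟩ := h2 N W D τ S hN hW hD hS hτ hgcd
  obtain ⟨D₁, hD₁⟩ : ∃ D₁ : ℝ, D₁ = C₁ * (1 + (N : ℝ) ^ 2 / √(N * X)) := ⟨_, rfl⟩
  have hD1 : 1 ≤ D₁ := by
    rw [hD₁]
    refine one_le_mul_of_one_le_of_one_le hC₁ ?_
    have : 0 ≤ (N : ℝ) ^ 2 / √(N * X) := by positivity
    linarith
  have hpr := hprs D₁ hD1
  -- `N / D ≤ 2 (N / D)²`
  have hND : (1 : ℝ) / 2 ≤ N / D := by
    obtain ⟨a, b, c⟩ := cn47 (hS hk₀)
    have hg : 1 ≤ Int.gcd k₀.1 k₀.2 := Nat.one_le_iff_ne_zero.2 fun h => by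
      have h3 := (Int.gcd_eq_zero_iff.1 h).1
      rw [h3] at a
      push_cast at a
      linarith
    have hg' : (1 : ℝ) ≤ (Int.gcd k₀.1 k₀.2 : ℝ) := by exact_mod_cast hg
    have h3 : D ≤ D * (Int.gcd k₀.1 k₀.2 : ℝ) := le_mul_of_one_le_right hD0.le hg'
    have h4 := hgcd k₀ hk₀
    rw [le_div_iff₀ hD0]
    linarith
  have hR : (N : ℝ) ^ 2 * W + (N / D) ^ 2 + N / D ≤ 3 * ((N : ℝ) ^ 2 * W + (N / D) ^ 2) := by
    have h3 : (N : ℝ) / D ≤ 2 * (N / D) ^ 2 := by nlinarith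
    have h4 : 0 ≤ (N : ℝ) ^ 2 * W := by positivity
    linarith
  have hlN : 0 ≤ log (N : ℝ) := log_nonneg hNr
  have hpr' : ((prs S D₁).card : ℝ) ≤ C₂ * (1 + log N) * D₁ * (3 * ((N : ℝ) ^ 2 * W + (N / D) ^ 2)) :=
    hpr.trans (mul_le_mul_of_nonneg_left hR (by positivity))
  -- the integral over the radii
  obtain ⟨K, hK⟩ : ∃ K : ℝ, K = (S.card : ℝ) ^ 6 * (C₁ * X * (N : ℝ) ^ (η / 2) * (S.card : ℝ) * ((prs S D₁).card : ℝ) ^ 2) := ⟨_, rfl⟩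
  have hK0 : 0 ≤ K := by
    rw [hK]
    positivity
  have hin : ∀ s ∈ Icc (s₀ - l) (s₀ + l), ∫⁻ r in Icc (X / B) (B * X), ENNReal.ofReal (mf F S r s) ≤ ENNReal.ofReal K := by
    intro s hs
    have hs' : s ∈ Icc (-1 : ℝ) 2 := ⟨hl1.trans hs.1, hs.2.trans hl2⟩
    calc ∫⁻ r in Icc (X / B) (B * X), ENNReal.ofReal (mf F S r s)
        ≤ ∫⁻ r in Icc (X / B) (B * X), ENNReal.ofReal ((S.card : ℝ) ^ 6) * ENNReal.ofReal (m6 S (fun k => ee (r * ((k.1 : ℝ) * F.q s (tt 0 k))))) := by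
          refine lintegral_mono fun r => ?_
          rw [← ENNReal.ofReal_mul (by positivity)]
          refine ENNReal.ofReal_le_ofReal ?_
          exact m12m6_47 S fun k => (ee_norm _).le
      _ = ENNReal.ofReal ((S.card : ℝ) ^ 6) * ∫⁻ r in Icc (X / B) (B * X), ENNReal.ofReal (m6 S (fun k => ee (r * ((k.1 : ℝ) * F.q s (tt 0 k))))) :=
          lintegral_const_mul' _ _ ENNReal.ofReal_ne_top
      _ ≤ ENNReal.ofReal ((S.card : ℝ) ^ 6) * ENNReal.ofReal (C₁ * X * (N : ℝ) ^ (η / 2) * (S.card : ℝ) * ((prs S D₁).card : ℝ) ^ 2) := by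
          refine mul_le_mul_right ?_ _
          rw [hD₁]
          exact h1 F hF X N s S hX hNr hcone hs'
      _ = ENNReal.ofReal K := by
          rw [← ENNReal.ofReal_mul (by positivity), hK]
  have hvol : volume (Icc (s₀ - l) (s₀ + l)) = ENNReal.ofReal (2 * l) := by
    rw [Real.volume_Icc]
    congr 1
    ring
  calc RN F s₀ l B X S ≤ ENNReal.ofReal l⁻¹ * ∫⁻ _s in Icc (s₀ - l) (s₀ + l), ENNReal.ofReal K := by
        unfold RN
        exact mul_le_mul_right (setLIntegral_mono' measurableSet_Icc hin) _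
    _ = ENNReal.ofReal l⁻¹ * (ENNReal.ofReal K * ENNReal.ofReal (2 * l)) := by rw [setLIntegral_const, hvol]
    _ = ENNReal.ofReal (K * 2) := by
        rw [← ENNReal.ofReal_mul hK0, ← ENNReal.ofReal_mul (by positivity)]
        congr 1
        field_simp
    _ ≤ _ := by
        refine ENNReal.ofReal_le_ofReal ?_
        rw [hK]
        exact num47 hη (by norm_num : (1 : ℝ) ≤ 2) hC₁ hC₂ hX hNr hNX (by positivity) (by positivity) hD₁ (by positivity) hcard (by positivity) hpr'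

end Pool.Agent.Helper60.GM
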